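import Pool.Agent.Lib.SmNH.Fin.FinNH
import Pool.Agent.Lib.SmN.Fin.JtoE

/-!
# HEIGHTS over SMITH-U, final layer: elliptic curves

`ordC_of_ordP`, `ord_short`: the order of vanishing for the elliptic curve `y ^ 2 = f(x)` from its
Jacobian. `twists_EH`: the quadratic twists of an elliptic curve over a global function field with
geometric Galois group `S₃` on the 2-torsion.
-/

set_option autoImplicit false

open Polynomial WeierstrassCurve

namespace Pool.Agent.SmNH.Fnl

open Pool.Agent.SmN Pool.Agent.SmN.Fnl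
open Pool.Agent.SmJ.R (OddDeg GoodP)

section

variable {k K : Type} [Field k] [Field K] [Algebra k K]

/-- The order of vanishing for the elliptic curve `y ^ 2 = f(x)`. -/
theorem ordC_of_ordP (h2 : (2 : K) ≠ 0) (W : WeierstrassCurve K) [Short W.toAffine]
    [W.IsElliptic] (h : OrdP k (cubW W.toAffine)) : Sm.L.OrdC k W := by
  obtain ⟨⟨e, he⟩, -⟩ := exists_isoE W h2 (SeparableClosure K)
  exact ordOnE_of k (SeparableClosure K) W (ordOn_iso e he h)

theorem ordP_congr {F G : K[X]} (hF : OddDeg F) (hG : OddDeg G) (hFG : F = G) (h : OrdP k F) :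
    OrdP k G := by
  subst hFG
  exact h

theorem ord_short (h6 : (6 : k) ≠ 0) {A B : K} (hs : (X ^ 3 + C A * X + C B : K[X]).Separable)
    (h : OrdP k (X ^ 3 + C A * X + C B : K[X])) :
    Sm.L.OrdC k (⟨0, 0, 0, A, B⟩ : WeierstrassCurve K) := by
  have h2 : (2 : K) ≠ 0 := two_ne_K h6
  have hEl := disc_ne h2 hs
  exact ordC_of_ordP h2 _ (ordP_congr _ _ (cubW_mk A B).symm h)

/-- The discriminant of the cubic. -/
theorem discr_short' (A B : K) :
    (X ^ 3 + C A * X + C B : K[X]).discr = -4 * A ^ 3 - 27 * B ^ 2 := by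
  have h1 : (X ^ 3 + C A * X + C B : K[X]).degree = 3 := by
    rw [degree_eq_natDegree (monic_short A B).ne_zero, natDegree_short]
    rfl
  have c0 : (X ^ 3 + C A * X + C B : K[X]).coeff 0 = B := by
    rw [coeff_add, coeff_add, coeff_X_pow, coeff_C_mul_X, coeff_C]
    norm_num
  have c1 : (X ^ 3 + C A * X + C B : K[X]).coeff 1 = A := by
    rw [coeff_add, coeff_add, coeff_X_pow, coeff_C_mul_X, coeff_C]
    norm_num
  have c2 : (X ^ 3 + C A * X + C B : K[X]).coeff 2 = 0 := by
    rw [coeff_add, coeff_add, coeff_X_pow, coeff_C_mul_X, coeff_C]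
    norm_num
  have c3 : (X ^ 3 + C A * X + C B : K[X]).coeff 3 = 1 := by
    rw [coeff_add, coeff_add, coeff_X_pow, coeff_C_mul_X, coeff_C]
    norm_num
  rw [discr_of_degree_eq_three h1, c0, c1, c2, c3]
  ring

end

section main

variable {k K : Type} [Field k] [Finite k] [Field K] [Algebra k K] [Algebra.EssFiniteType k K]

/-- **The quadratic twists of an elliptic curve over a global function field**, with the order of
vanishing: for all but a proportion `ε` of the twists the Selmer groups of `V = E[2 ^ ∞]` and of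
`V ⊗ Z[ε] / ε ^ 2` have the same corank `r ≤ 1`. -/
theorem twists_EH (hK : Algebra.trdeg k K = 1) (h6 : (6 : k) ≠ 0) {A B : K}
    (hG : Nat.card (X ^ 3 + C A * X + C B : K[X]).Gal = 6)
    (hdisc : ∀ c s : K, IsAlgebraic k c → -4 * A ^ 3 - 27 * B ^ 2 ≠ c * s ^ 2) :
    (∀ N, (TwLE k N (fun _ : K => True)).Finite) ∧
    ∀ ε : ℝ, 0 < ε → ∃ j N₀ : ℕ, ∀ N ≥ N₀,
      ((TwLE k N (fun d : K =>
        ¬ (Sm.L.GoodC k (twE A B d) j ∧ Sm.L.OrdC k (twE A B d)))).ncard : ℝ) ≤
        ε * (TwLE k N (fun _ : K => True)).ncard := by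
  obtain ⟨h2, h3, h4⟩ := tw_facts_E h6 hG
  obtain ⟨_, _⟩ := exists_heights k K hK
  obtain ⟨h5, h7⟩ := twists_JH k K hK le_rfl h3 (monic_short A B) (separable_short A B h4)
    (natDegree_short A B) (Or.inl ⟨hG, fun c s hc => by
      rw [discr_short']
      exact hdisc c s hc⟩)
  refine ⟨h5, fun ε hε => ?_⟩
  obtain ⟨j, N₀, h8⟩ := h7 ε hε
  refine ⟨j, N₀, fun N hN => le_trans ?_ (h8 N hN)⟩
  refine Nat.cast_le.2 (Set.ncard_le_ncard (twLE_mono fun d hd h9 => hd ?_)
    ((h5 N).subset (twLE_mono fun _ _ => trivial)))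
  have hEl : (twE A B (d : K)).IsElliptic := twE_elliptic h2 h4 d.ne_zero
  have e := cubW_twE A B (d : K)
  have key : ∀ (F G : K[X]) (_ : OddDeg F) (_ : OddDeg G), F = G → GoodP k F j → GoodP k G j := by
    rintro F _ _ _ rfl h
    exact h
  exact ⟨goodE_of_J _ h2 (key _ _ _ _ e.symm h9.1),
    ordC_of_ordP h2 _ (ordP_congr _ _ e.symm h9.2)⟩

end main

end Pool.Agent.SmNH.Fnl
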