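import Pool.Agent.Lib.SmNH.Fin.TwNH
import Pool.Agent.Lib.SmNH.Inst.AHOkK
import Pool.Agent.Lib.SmN.Fin.GeoS
import Pool.Agent.Lib.SmN.Fin.FinJ

/-!
# HEIGHTS over SMITH-U, final layer: the Jacobians of the quadratic twists of `y ^ 2 = f(x)`

`K` a finitely generated extension of transcendence degree one of a finite field `k`, `f : K[X]`
monic, separable, of degree `2 g + 1` (`g ≥ 1`, `(2 g + 1)! ≠ 0` in `k`), with geometric Galois group
the symmetric group (the Galois group has order `(2 g + 1)!` and the discriminant is not a constant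
times a square) or, for `g ≥ 2`, the alternating group. For every `ε > 0` there is a `j` such that for all but a proportion `ε` of the
quadratic twists (ordered by the degree of the ramification) the `2 ^ j`-Selmer group has less than
`4 ^ j` elements and the Selmer groups of `V = J[2 ^ ∞]` and of `V ⊗ Z[ε] / ε ^ 2` have the same corank
`r ≤ 1`.
-/

set_option autoImplicit false

open Polynomial

namespace Pool.Agent.SmNH.Fnl

open Pool.Agent.SmN Pool.Agent.SmN.Fnl
open Pool.Agent.BSDFF (Place)
open Pool.Agent.BSDFF.MW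
open Pool.Agent.SmJ Pool.Agent.SmNJ Pool.Agent.GBU Pool.Agent.SmP
open Pool.Agent.SmJ.L (EV GMod E6Prop OrdOn)
open Pool.Agent.SmJ.R (OddDeg Jc JP jcMap galP map_gal GoodP goodOn_iff)
open Pool.Agent.GBC (exists_ratFunc)
open Pool.Agent.Lib.SmD (chi)

/-- The Selmer groups of `V = J[2 ^ ∞]` and of `W = V ⊗ Z[ε] / ε ^ 2`, `J` the Jacobian of
`y ^ 2 = f(x)`, have the same corank `r ≤ 1`. -/
def OrdP (k : Type) {K : Type} [Field k] [Field K] [Algebra k K] (f : K[X]) [OddDeg f] : Prop :=
  OrdOn k (galP (SeparableClosure K) f)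

section one

variable {k K Ω : Type} [Field k] [Finite k] [Field K] [Algebra k K] [Algebra (RatFunc k) K]
  [IsScalarTower k (RatFunc k) K] [FiniteDimensional (RatFunc k) K]
  [Algebra.IsSeparable (RatFunc k) K] [Field Ω] [Algebra K Ω] [IsSepClosure K Ω] {g : ℕ}
  {a : Fin (2 * g + 1) → Ω} [RtG K a] [HypA a]

omit [RtG K a] in
/-- (E6) for the twist by `d`. -/
theorem tw_e6 (h2 : (2 : k) ≠ 0) {f : K[X]} (hm : f.Monic)
    (ha : ff a = f.map (algebraMap K Ω)) {d : K} (hd : d ≠ 0) [OddDeg (f.scaleRoots d)] :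
    E6Prop k (galP Ω (f.scaleRoots d)) := by
  have hsc : IsSepClosed Ω := IsSepClosure.sep_closed K
  have hgal : IsGalois K Ω := inferInstance
  have h2K : (2 : K) ≠ 0 := by
    intro h
    apply h2
    apply (algebraMap k K).injective
    rw [map_ofNat, h, map_zero]
  have hd' : algebraMap K Ω d ≠ 0 := fun h => hd ((map_eq_zero_iff _ (algebraMap K Ω).injective).mp h)
  have hB : HypA fun i => algebraMap K Ω d * a i := HypA.mul hd'
  have hff := ff_scale ha hm d
  have hR : RtG K fun i => algebraMap K Ω d * a i := rtG_of h2K hB.inj hff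
  exact (trans_gN (fun M _ ρ => E6Prop k ρ) _ _ hff).2 (E6.e6_gN (k := k) _ h2)

/-- The order of vanishing over a smaller field of constants. -/
theorem ord_const_tw {k₀ : Type} [Field k₀] [Finite k₀] [Algebra k₀ K] [Algebra k₀ k]
    (h2 : (2 : k) ≠ 0) (hn : ((2 * g + 1).factorial : K) ≠ 0)
    (hfix : ∀ w : EV g, (∀ s, acN K a s w = w) → w = 0) {f : K[X]} (hm : f.Monic)
    (ha : ff a = f.map (algebraMap K Ω)) {d : K} (hd : d ≠ 0) [OddDeg (f.scaleRoots d)]
    (h : OrdOn k (galP Ω (f.scaleRoots d))) : OrdOn k₀ (galP Ω (f.scaleRoots d)) := by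
  have hsc : IsSepClosed Ω := IsSepClosure.sep_closed K
  have hgal : IsGalois K Ω := inferInstance
  have h2' : (2 : k₀) ≠ 0 := by
    intro h
    apply h2
    rw [← map_ofNat (algebraMap k₀ k), h, map_zero]
  obtain ⟨h1, h3, h4, -, -⟩ := tw_facts (k := k) h2 hn hfix hm ha hd ∅
  refine ordOn_const (k := k₀) (k' := k) h1 h2' (fun w hw hw' => tw_e6 h2 hm ha hd w hw
    ((const_iff k₀ k w).1 hw')) (c := 4 ^ g) (by positivity) (fun i => ?_) (F := 1)
    (fun i => (h4 i).le) h
  rw [h3, pow_mul]

end one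

section geo

variable {k K Ω : Type} [Field k] [Finite k] [Field K] [Algebra k K] [Field Ω] [Algebra K Ω]
  {g : ℕ} {f : K[X]} {a : Fin (2 * g + 1) → Ω} [RtG K a]

/-- The Galois group of `f` has the same image as the geometric one: it is the symmetric group and
the discriminant is not a constant times a square, or (`g ≥ 2`) it is the alternating group. -/
def GalGeo (k : Type) {K : Type} [Field k] [Field K] [Algebra k K] (f : K[X]) (g : ℕ) : Prop :=
  (Nat.card f.Gal = (2 * g + 1).factorial ∧
    ∀ c s : K, IsAlgebraic k c → f.discr ≠ c * s ^ 2) ∨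
  2 ≤ g ∧ 2 * Nat.card f.Gal = (2 * g + 1).factorial

omit [Finite k] in
theorem GalGeo.big (h : GalGeo k f g) : GalBig f g := h.imp (fun h => h.1) id

omit [Finite k] [Algebra k K] [Field k] in
/-- If the Galois group has index two in the symmetric group its image is the alternating group. -/
theorem range_eq_alt [IsGalois K Ω] (hf : f.Separable) (ha : ff a = f.map (algebraMap K Ω))
    (hG : 2 * Nat.card f.Gal = (2 * g + 1).factorial) :
    (pm K a).range = alternatingGroup (Fin (2 * g + 1)) := by
  classical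
  refine le_antisymm ?_ (alt_le_range hf ha hG)
  by_contra hcon
  have hsp : (f.map (algebraMap K Ω)).Splits := by
    rw [← ha, ff]
    exact Splits.prod fun i _ => Splits.X_sub_C _
  have : Fact ((f.map (algebraMap K Ω)).Splits) := ⟨hsp⟩
  have hinj : Function.Injective a := RtG.inj K
  -- the image is a quotient of the Galois group
  have hle : Nat.card (pm K a).range ≤ Nat.card f.Gal := by
    have hk : ∀ s t : Ω ≃ₐ[K] Ω, Gal.restrict f Ω s = Gal.restrict f Ω t → pm K a s = pm K a t := by
      intro s t hst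
      ext i
      congr 1
      apply hinj
      rw [pm_spec K a s i, pm_spec K a t i]
      have hmem : a i ∈ f.rootSet Ω := by
        rw [mem_rootSet]
        exact ⟨hf.ne_zero, eval_root ha i⟩
      have h1 := Gal.galActionHom_restrict f Ω s ⟨a i, hmem⟩
      have h2 := Gal.galActionHom_restrict f Ω t ⟨a i, hmem⟩
      rw [hst, h2] at h1
      exact h1.symm
    choose u hu using Gal.restrict_surjective f Ω
    have h3 : Function.Surjective fun τ : f.Gal => (⟨pm K a (u τ), ⟨u τ, rfl⟩⟩ : (pm K a).range) := by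
      rintro ⟨_, ⟨s, rfl⟩⟩
      refine ⟨Gal.restrict f Ω s, Subtype.ext ?_⟩
      exact hk _ _ (hu _)
    have hfin : Finite f.Gal := inferInstance
    exact Nat.card_le_card_of_surjective _ h3
  have h4 := alt_le_range hf ha hG
  have hidx : (alternatingGroup (Fin (2 * g + 1))).index ≤ 2 := by
    rcases subsingleton_or_nontrivial (Fin (2 * g + 1)) with hs | hs
    · rw [alternatingGroup.index_eq_one]
      omega
    · rw [alternatingGroup.index_eq_two]
  -- the image is everything
  have h5 : Nat.card (alternatingGroup (Fin (2 * g + 1))) < Nat.card (pm K a).range := by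
    have h6 : alternatingGroup (Fin (2 * g + 1)) < (pm K a).range :=
      lt_of_le_of_ne h4 fun h => hcon h.ge
    exact Set.Finite.card_lt_card (Set.toFinite _) h6
  have h7 := (alternatingGroup (Fin (2 * g + 1))).card_mul_index
  rw [Nat.card_perm, Nat.card_fin] at h7
  have h8 : Nat.card (alternatingGroup (Fin (2 * g + 1))) *
      (alternatingGroup (Fin (2 * g + 1))).index ≤
        Nat.card (alternatingGroup (Fin (2 * g + 1))) * 2 := Nat.mul_le_mul_left _ hidx
  omega

/-- The geometric group has the same image as the whole Galois group. -/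
theorem geo_of_big [IsGalois K Ω] [IsSepClosed Ω] (h2 : (2 : k) ≠ 0) (hm : f.Monic)
    (hs : f.Separable) (ha : ff a = f.map (algebraMap K Ω))
    (hG : GalGeo k f g) (hk : ∀ x : K, IsC k x → ∃ c : k, algebraMap k K c = x)
    (s : Ω ≃ₐ[K] Ω) : ∃ t ∈ GeoK k K Ω, pm K a t = pm K a s := by
  have key : pm K a s ∈ (GeoK k K Ω).map (pm K a) := by
    rcases hG with ⟨hG, hd⟩ | ⟨hg, hG⟩
    · obtain ⟨h1, -⟩ := exists_fr_poly (k := k) a h2 hm hs ha hG (fun c s => hd _ s
        ((isAlgebraic_algebraMap c))) hk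
      rw [h1]
      exact Subgroup.mem_top _
    · have h1 := range_eq_alt hs ha hG
      have h3 : (commutator (Ω ≃ₐ[K] Ω)).map (pm K a) ≤ (GeoK k K Ω).map (pm K a) :=
        Subgroup.map_mono commutator_le_GeoK
      apply h3
      rw [commutator_def, Subgroup.map_commutator, ← MonoidHom.range_eq_map, h1,
        commutator_alternatingGroup_eq_self (by rw [Nat.card_fin]; omega), ← h1]
      exact ⟨s, rfl⟩
  exact key

end geo

section core

variable {k K : Type} [Field k] [Finite k] [Field K] [Algebra k K] [Algebra (RatFunc k) K]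
  [IsScalarTower k (RatFunc k) K] [FiniteDimensional (RatFunc k) K]
  [Algebra.IsSeparable (RatFunc k) K] {g : ℕ}

/-- The twists, `k` the field of constants of `K`, `k₀` a subfield of `k`. -/
theorem twJH_core (k₀ : Type) [Field k₀] [Finite k₀] [Algebra k₀ K] [Algebra k₀ k]
    (h2 : (2 : k) ≠ 0) (hn : ((2 * g + 1).factorial : K) ≠ 0)
    (hk : ∀ x : K, IsIntegral k x → ∃ c : k, algebraMap k K c = x) (hg : 1 ≤ g)
    {f : K[X]} [OddDeg f] (hm : f.Monic) (hs : f.Separable) (hd : f.natDegree = 2 * g + 1)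
    (hG : GalGeo k f g) :
    (∀ N, (TwLE k N (fun _ : K => True)).Finite) ∧
    ∀ ε : ℝ, 0 < ε → ∃ j N₀ : ℕ, ∀ N ≥ N₀,
      ((TwLE k N (fun d : K =>
        ¬ (GoodP k₀ (f.scaleRoots d) j ∧ OrdP k₀ (f.scaleRoots d)))).ncard : ℝ) ≤
        ε * (TwLE k N (fun _ : K => True)).ncard := by
  have h2K : (2 : K) ≠ 0 := by
    intro h
    apply h2
    apply (algebraMap k K).injective
    rw [map_ofNat, h, map_zero]
  have hgal : IsGalois K (SeparableClosure K) := IsSepClosure.isGalois
  obtain ⟨a, hinj, ha⟩ := exists_rts (F := f.map (algebraMap K (SeparableClosure K)))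
    (hm.map _) (hs.map) (IsSepClosed.splits_codomain f hs) (g := g) (by rw [natDegree_map]; exact hd)
  have hR : RtG K a := rtG_of h2K hinj ha
  have hA : HypA a := ⟨hinj, hR.two⟩
  have hb : BigIm K a := bigIm_of hs ha hG.big
  have hfix : ∀ w : EV g, (∀ s, acN K a s w = w) → w = 0 := fun w hw => hb.nofix hg w hw
  have hgeo' : ∀ s : SeparableClosure K ≃ₐ[K] SeparableClosure K,
      ∃ t ∈ GeoK k K (SeparableClosure K), ∀ w, acN K a t w = acN K a s w := by
    intro s
    obtain ⟨t, ht, h3⟩ := geo_of_big h2 hm hs ha hG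
      (fun x hx => hk x (SmBU.isIntegral_iff_isC.2 hx)) s
    refine ⟨t, ht, fun w => ?_⟩
    rw [acN, MonoidHom.comp_apply, MonoidHom.comp_apply, h3]
  obtain ⟨T0, T, fr, ca, cC, H, hT, -, -, -, hfr, hdeg, -, hAOk, hAH⟩ :=
    exists_ahOk k K (SeparableClosure K) a h2 hn hk hg hb hgeo' (W := ∅) Set.finite_empty
  have hnt : Nontrivial (EV g) := nontrivial_EV hg
  have hM := main_H hAOk hAH
  refine tw_absH h2K rfl (locVals h2) hT hAOk hM _ fun m d hm1 hsm hq => ?_
  obtain ⟨h5, h6⟩ := ord_of_smallH (T0 := (T0 : Set (Place k K))) h2 hn hfix hm ha d.ne_zero hfr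
    hAOk.ok hAH.hok hdeg hm1 hsm hq
  exact ⟨(goodOn_iff _ _ _).2 (goodOnJ_const k k₀ _ _ h5),
    ord_const_tw h2 hn hfix hm ha d.ne_zero h6⟩

end core

section main

variable (k K : Type) [Field k] [Finite k] [Field K] [Algebra k K] [Algebra.EssFiniteType k K]

/-- **The quadratic twists of a Jacobian with big geometric Galois group**: for all but a
proportion `ε` of the twists the `2 ^ j`-Selmer group has less than `4 ^ j` elements and the
Selmer groups of `V = J[2 ^ ∞]` and of `V ⊗ Z[ε] / ε ^ 2` have the same corank `r ≤ 1`. -/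
theorem twists_JH (hK : Algebra.trdeg k K = 1) {g : ℕ} (hg : 1 ≤ g)
    (hn : ((2 * g + 1).factorial : k) ≠ 0) {f : K[X]} [OddDeg f] (hm : f.Monic) (hs : f.Separable)
    (hd : f.natDegree = 2 * g + 1) (hG : GalGeo k f g) :
    (∀ N, (TwLE k N (fun _ : K => True)).Finite) ∧
    ∀ ε : ℝ, 0 < ε → ∃ j N₀ : ℕ, ∀ N ≥ N₀,
      ((TwLE k N (fun d : K =>
        ¬ (GoodP k (f.scaleRoots d) j ∧ OrdP k (f.scaleRoots d)))).ncard : ℝ) ≤
        ε * (TwLE k N (fun _ : K => True)).ncard := by
  have hfin : Finite (cst k K) := finite_cst k K hK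
  have htr : Algebra.trdeg (cst k K) K = 1 := trdeg_cst k K hK
  have hess : Algebra.EssFiniteType (cst k K) K := essFinite_cst k K
  have hpf : PerfectField (cst k K) := inferInstance
  obtain ⟨alg, i1, i2, i3⟩ := exists_ratFunc (cst k K) K htr
  have hn' : ((2 * g + 1).factorial : cst k K) ≠ 0 := by
    intro h
    apply hn
    apply (algebraMap k (cst k K)).injective
    rw [map_natCast, h, map_zero]
  have hnK : ((2 * g + 1).factorial : K) ≠ 0 := by
    intro h
    apply hn
    apply (algebraMap k K).injective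
    rw [map_natCast, h, map_zero]
  refine tw_descend (k' := cst k K) (fun j d h => h)
    (twJH_core (k := cst k K) k (two_ne_of hg hn') hnK
      (fun x hx => const_cst k K x (SmBU.isIntegral_iff_isC.1 hx)) hg hm hs hd
      (hG.imp (fun h => ⟨h.1, fun c s hc => h.2 c s ?_⟩) id))
  exact hc.restrictScalars k

end main

end Pool.Agent.SmNH.Fnl
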