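import Pool.Agent.Lib.SmN.Fin.Abs
import Pool.Agent.Lib.SmNH.Main

/-!
# HEIGHTS over SMITH-U: from `LHThm` to all quadratic characters
-/

set_option autoImplicit false

open Finset

namespace Pool.Agent.SmNH

open Pool.Agent.SmN Pool.Agent.SmN.Ch Pool.Agent.SmN.Fnl

variable {G V V1 Pl M : Type} [Group G] [AddCommGroup V] [DistribMulAction G V]
  [AddCommGroup V1] [Module (ZMod 2) V1] [AddCommGroup M] [DistribMulAction G M]
  {S : Sys G V V1 Pl} {H : HData V M Pl} {T : Set Pl} {deg : Pl → ℕ}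

/-- From `LHThm` for the finitely many `chi0` unramified outside `T` to all quadratic
characters. -/
theorem all_of_mainH {q : ℕ} (hS : S.Ok) (hT : T.Finite) (hF : LagF S T)
    (hX : (XX T deg).Ok q)
    (h : ∃ cd : CData S (XX T deg), cd.pl = Subtype.val ∧ ∀ chi0, XT S T chi0 →
      CdH ({ cd with chi0 := chi0 } : CData S (XX T deg)) H ∧
      LHThm ({ cd with chi0 := chi0 } : CData S (XX T deg)) H) :
    ∀ ε : ℝ, 0 < ε → ∃ s₁ : ℕ, ∀ s ≥ s₁, ∃ n₀ : ℕ, ∀ n ≥ n₀,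
      (Nat.card {c : {c : G → ZMod 2 // S.HomG c} //
        rdeg S deg c.1 ≤ n ∧ ∃ y, IsZ S H c.1 s y} : ℝ) ≤
        ε * Nat.card {c : {c : G → ZMod 2 // S.HomG c} // rdeg S deg c.1 ≤ n} := by
  classical
  obtain ⟨cd, hpl, h2⟩ := h
  obtain ⟨c, C, n₀, hG⟩ := growth_of hX
  have h0 : XT S T 0 := ⟨Sys.HomG.zero hS, fun _ _ => rfl⟩
  have hOk := (h2 0 h0).1.ok
  let ch : Out T → G → ZMod 2 := cd.ch
  have hch : ChFam S T ch := by
    refine ⟨hOk.ch_hom, fun P => ?_, fun P Q hPQ => ?_⟩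
    · have h1 : cd.ch P (S.sg (cd.pl P)) = 1 := hOk.ch_self P
      rw [hpl] at h1
      exact h1
    · have h1 : cd.ch P (S.sg (cd.pl Q)) = 0 := hOk.ch_unr P Q hPQ
      rw [hpl] at h1
      exact h1
  intro ε hε
  obtain ⟨K, hK, hall⟩ := all_of_fam hS hT hF hch hG
  have hXf := xt_finite hT hS hF
  have := Fintype.ofFinite {c // XT S T c}
  have hεK : 0 < ε / K := div_pos hε hK
  choose m₁ hm₁ using fun c0 : {c // XT S T c} => (h2 c0.1 c0.2).2 (ε / K) hεK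
  refine ⟨univ.sup m₁, fun m hm => ?_⟩
  choose n₁ hn₁ using fun c0 : {c // XT S T c} =>
    hm₁ c0 m ((le_sup (f := m₁) (mem_univ c0)).trans hm)
  obtain ⟨n₂, hn₂⟩ := hall (fun c => ∃ y, IsZ S H c m y) (ε / K) hεK (univ.sup n₁)
    fun c0 hc0 n hn => by
      have h1 := hn₁ ⟨c0, hc0⟩ n ((le_sup (f := n₁) (mem_univ (⟨c0, hc0⟩ : {c // XT S T c}))).trans
        hn)
      exact h1
  refine ⟨n₂, fun n hn => ?_⟩
  have h4 := hn₂ n hn
  rwa [mul_div_cancel₀ _ hK.ne'] at h4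

/-- **All quadratic characters**: for `100` per cent of the characters the height form of level `s`
has no zero whose top is not a coboundary. -/
theorem all_H [Nontrivial V1] {Geo : Subgroup G} {fr : G} {q a C : ℕ} (hT : T.Finite)
    (h : AOk S T deg q Geo fr a C 1) (hA : AHOk S H T deg) :
    ∀ ε : ℝ, 0 < ε → ∃ s₁ : ℕ, ∀ s ≥ s₁, ∃ n₀ : ℕ, ∀ n ≥ n₀,
      (Nat.card {c : {c : G → ZMod 2 // S.HomG c} //
        rdeg S deg c.1 ≤ n ∧ ∃ y, IsZ S H c.1 s y} : ℝ) ≤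
        ε * Nat.card {c : {c : G → ZMod 2 // S.HomG c} // rdeg S deg c.1 ≤ n} :=
  all_of_mainH h.ok hT h.lagF h.xok (main_H h hA)

end Pool.Agent.SmNH
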