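import Pool.Agent.Lib.SmNH.Fin.OrdN
import Pool.Agent.Lib.SmN.Fin.Const

/-!
# HEIGHTS over SMITH-U, final layer: reduction to the case where `k` is the field of constants

`k'` a finite extension of the finite field `k`, `K` a field over `k'`. The degree over `k` of an
element of the Galois group is `[k' : k]` times the degree over `k'`, and `OrdOn` over `k'` implies
`OrdOn` over `k`.
-/

set_option autoImplicit false

open Pool.Agent.BSDFF.MW

namespace Pool.Agent.SmNH.Fnl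

open Pool.Agent.SmJ.L Pool.Agent.GBU
open Pool.Agent.Sm.L (IsDeg exists_isDeg)
open Pool.Agent.SmN.Fnl (const_iff hasCorank_const zsel_const)

section const

variable {k k' K Ω : Type} [Field k] [Field k'] [Field K] [Field Ω] [Algebra k K]
  [Algebra k' K] [Algebra K Ω] [Algebra k k'] [Finite k] [Finite k']
  {M : Type} [AddCommGroup M] {ρ : (Ω ≃ₐ[K] Ω) → M →+ M}

omit [Field K] [Algebra K Ω] [Algebra k K] [Algebra k' K] in
theorem pow_iter {c : Ω} {Q : ℕ} (h : c ^ Q = c) (m : ℕ) : c ^ Q ^ m = c := by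
  induction m with
  | zero => rw [pow_zero, pow_one]
  | succ m ih => rw [pow_succ, pow_mul, ih, h]

omit [Finite k] [Algebra k K] [Algebra k' K] in
/-- The degrees over `k` and `k'`. -/
theorem isDeg_const {N : ℕ} {s : Ω ≃ₐ[K] Ω} {d : ℕ} (h : IsDeg k' Ω N s d) :
    IsDeg k Ω N s (Module.finrank k k' * d) := by
  intro c hc
  have hcard : Nat.card k' = Nat.card k ^ Module.finrank k k' := Module.natCard_eq_pow_finrank
  have h1 : c ^ (Nat.card k' ^ 2 ^ N) = c := by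
    rw [hcard, ← pow_mul, mul_comm, pow_mul]
    exact pow_iter hc _
  rw [h c h1, hcard, ← pow_mul]

/-- The map `(x, y) ↦ (f x, y)`. -/
theorem isWSel_const {i : ℕ} {p : ((Ω ≃ₐ[K] Ω) → M) × ((Ω ≃ₐ[K] Ω) → M)}
    (h : SmJ.L.IsWSel k ρ i p) :
    SmJ.L.IsWSel k' ρ i (fun s => Module.finrank k k' • p.1 s, p.2) := by
  refine ⟨fun s t => ?_, fun s t d hd => ?_, fun s => ⟨?_, (h.tors s).2⟩, ?_, fun w hw hc => ?_⟩
  · change Module.finrank k k' • p.1 (s * t) = Module.finrank k k' • p.1 s +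
      ρ s (Module.finrank k k' • p.1 t)
    rw [h.cocycle, smul_add, map_nsmul]
  · change p.2 (s * t) = p.2 s + ρ s (p.2 t) + d • ρ s (Module.finrank k k' • p.1 t)
    rw [h.cocycle' s t _ (isDeg_const (k := k) hd), map_nsmul, mul_comm, mul_smul]
  · change 2 ^ i • Module.finrank k k' • p.1 s = 0
    rw [smul_comm, (h.tors s).1, smul_zero]
  · obtain ⟨L, hL, h1⟩ := h.cont
    refine ⟨L, hL, fun s t hst => ⟨?_, (h1 s t hst).2⟩⟩
    change Module.finrank k k' • p.1 s = Module.finrank k k' • p.1 t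
    rw [(h1 s t hst).1]
  · obtain ⟨N, Q, R, hQ, hR, h1⟩ := h.loc w hw ((const_iff k k' w).2 hc)
    refine ⟨N, Module.finrank k k' • Q, R, by rw [smul_comm, hQ, smul_zero], hR,
      fun s hs => ⟨?_, fun d hd => ?_⟩⟩
    · change Module.finrank k k' • p.1 s = _
      rw [(h1 s hs).1, smul_sub, map_nsmul]
    · change p.2 s = _
      rw [(h1 s hs).2 _ (isDeg_const (k := k) hd), map_nsmul, mul_comm, mul_smul]

/-- The homomorphism `(x, y) ↦ (f x, y)`. -/
noncomputable def betaW (i : ℕ) : SmJ.L.WZSel k ρ i →+ SmJ.L.WZSel k' ρ i :=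
  AddMonoidHom.mk' (fun p => ⟨(fun s => Module.finrank k k' • p.1.1 s, p.1.2),
    isWSel_const p.2⟩) fun p q => Subtype.ext (by
      ext1
      · funext s
        exact smul_add _ _ _
      · rfl)

omit [Finite k] [Algebra k' K] [Finite k'] [Field k'] [Algebra k k'] in
theorem zsel_gcd {n i : ℕ} {ψ : (Ω ≃ₐ[K] Ω) → M} (h : IsSel k ρ (2 ^ i) ψ)
    (hn : ∀ s, n • ψ s = 0) {v : ℕ} (hv : Nat.gcd (2 ^ i) n ∣ 2 ^ v) : IsSel k ρ (2 ^ v) ψ := by
  refine ⟨h.cocycle, fun s => ?_, h.cont, h.loc⟩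
  obtain ⟨e, he⟩ := hv
  have h1 : Nat.gcd (2 ^ i) n • ψ s = 0 := by
    have h2 : addOrderOf (ψ s) ∣ 2 ^ i := addOrderOf_dvd_of_nsmul_eq_zero (h.tors s)
    have h3 : addOrderOf (ψ s) ∣ n := addOrderOf_dvd_of_nsmul_eq_zero (hn s)
    exact addOrderOf_dvd_iff_nsmul_eq_zero.1 (Nat.dvd_gcd h2 h3)
  rw [he, mul_comm, mul_smul, h1, smul_zero]

theorem gcd_two_pow {n : ℕ} (hn : n ≠ 0) (i : ℕ) : Nat.gcd (2 ^ i) n ∣ 2 ^ n := by
  obtain ⟨j, hj, h1⟩ := (Nat.dvd_prime_pow Nat.prime_two).1 (Nat.gcd_dvd_left (2 ^ i) n)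
  rw [h1]
  refine pow_dvd_pow 2 ?_
  have h2 : 2 ^ j ∣ n := h1 ▸ Nat.gcd_dvd_right (2 ^ i) n
  exact (Nat.lt_two_pow_self (n := j)).le.trans (Nat.le_of_dvd (Nat.pos_of_ne_zero hn) h2)

theorem card_ker_betaW (i : ℕ) (hfin : Finite (ZSel k ρ (2 ^ Module.finrank k k'))) :
    Finite (betaW (k := k) (k' := k') (ρ := ρ) i).ker ∧
    Nat.card (betaW (k := k) (k' := k') (ρ := ρ) i).ker ≤
      Nat.card (ZSel k ρ (2 ^ Module.finrank k k')) := by
  have h1 : ∀ p, p ∈ (betaW (k := k) (k' := k') (ρ := ρ) i).ker →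
      (∀ s, Module.finrank k k' • p.1.1 s = 0) ∧ p.1.2 = 0 := by
    intro p hp
    have h2 := congrArg Subtype.val ((betaW (k := k) (k' := k') (ρ := ρ) i).mem_ker.1 hp)
    exact ⟨fun s => congrFun (congrArg Prod.fst h2) s, congrArg Prod.snd h2⟩
  have h0 : Module.finrank k k' ≠ 0 := (SmN.Fnl.finrank_pos k k').ne'
  have hz : ∀ p : SmJ.L.WZSel k ρ i, (∀ s, Module.finrank k k' • p.1.1 s = 0) → p.1.2 = 0 →
      IsSel k ρ (2 ^ Module.finrank k k') p.1.1 := by
    intro p h2 _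
    refine zsel_gcd (n := Module.finrank k k') (i := i) ⟨p.2.cocycle, fun s => (p.2.tors s).1,
      ?_, fun w hw hc => ?_⟩ h2 (gcd_two_pow h0 i)
    · obtain ⟨L, hL, h3⟩ := p.2.cont
      exact ⟨L, hL, fun s t hst => (h3 s t hst).1⟩
    · obtain ⟨N, Q, R, hQ, hR, h3⟩ := p.2.loc w hw hc
      exact ⟨Q, fun s hs => (h3 s hs).1⟩
  let g : (betaW (k := k) (k' := k') (ρ := ρ) i).ker → ZSel k ρ (2 ^ Module.finrank k k') :=
    fun p => ⟨p.1.1.1, hz p.1 (h1 _ p.2).1 (h1 _ p.2).2⟩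
  have hg : Function.Injective g := by
    intro p q hpq
    apply Subtype.ext
    apply Subtype.ext
    refine Prod.ext (congrArg Subtype.val hpq) ?_
    rw [(h1 _ p.2).2, (h1 _ q.2).2]
  exact ⟨Finite.of_injective g hg, Nat.card_le_card_of_injective g hg⟩

/-- **Reduction to the field of constants.** -/
theorem ordOn_const [IsSepClosed Ω] [Algebra.IsAlgebraic K Ω] (hG : GMod ρ)
    (h2 : (2 : k) ≠ 0) (hE6 : E6Prop k ρ) {c : ℕ} (hc : 0 < c)
    (hV : ∀ i, Nat.card (Gn M (2 ^ i)) = c ^ i) {F : ℕ}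
    (hF : ∀ i, Nat.card (Gn (Rat ρ) (2 ^ i)) ≤ F) (h : OrdOn k' ρ) : OrdOn k ρ := by
  have h2' : (2 : k') ≠ 0 := by
    intro h3
    apply h2
    apply (algebraMap k k').injective
    rw [map_ofNat, h3, map_zero]
  obtain ⟨r, hr1, hr, B, hB⟩ := h
  have hr' : HasCorank k ρ r := hasCorank_const k' k ρ (fun w => const_iff k' k w) hr
  have hE6' : E6Prop k' ρ := fun w hw hw' => hE6 w hw ((const_iff k k' w).2 hw')
  obtain ⟨hZf, C, hC⟩ := zsel_of_hasCorank hG hc hV hr'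
  choose d hdlt hd using fun i => exists_isDeg (k := k') (K := K) (Ω := Ω) h2' i
  have hVf : ∀ i, Finite (Gn M (2 ^ i)) := fun i =>
    Nat.finite_of_card_ne_zero (by rw [hV]; positivity)
  -- the number of the pairs over `k'`
  have hW : ∀ i, Finite (SmJ.L.WZSel k' ρ i) ∧
      Nat.card (SmJ.L.WZSel k' ρ i) ≤ B * (2 ^ r * c ^ 2) ^ i := by
    intro i
    have hf := hVf i
    have e1 := card_ker_range (cobW ρ (2 ^ i) (d i))
    rw [Nat.card_prod, hV, range_cobW h2' i (hd i)] at e1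
    have e3 := card_wzsel hG h2' i
    have hpos : 0 < c ^ i * c ^ i := by positivity
    have hk1 : Nat.card (cobW ρ (2 ^ i) (d i)).ker ≠ 0 := by
      intro h0
      rw [h0, zero_mul] at e1
      omega
    have hk2 : Nat.card (WBSel k' ρ i) ≠ 0 := by
      intro h0
      rw [h0, mul_zero] at e1
      omega
    have hle : Nat.card (WBSel k' ρ i) ≤ c ^ i * c ^ i := by
      rw [e1]
      exact Nat.le_mul_of_pos_left _ (Nat.pos_of_ne_zero hk1)
    have hS : Nat.card (SmJ.L.WSel k' ρ i) ≠ 0 := by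
      intro h0
      have h4 := (hB i).2
      rw [h0, mul_zero] at h4
      exact absurd h4 (not_le.mpr (by positivity))
    refine ⟨Nat.finite_of_card_ne_zero (by rw [e3]; exact mul_ne_zero hS hk2), ?_⟩
    rw [e3]
    calc Nat.card (SmJ.L.WSel k' ρ i) * Nat.card (WBSel k' ρ i)
        ≤ (B * 2 ^ (r * i)) * (c ^ i * c ^ i) := Nat.mul_le_mul (hB i).1 hle
      _ = B * (2 ^ r * c ^ 2) ^ i := by
        rw [mul_pow, ← pow_mul 2 r i, ← pow_mul c 2 i, ← pow_add, mul_assoc]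
        congr 3
        ring
  have hW' : ∀ i, Finite (SmJ.L.WZSel k ρ i) ∧ Nat.card (SmJ.L.WZSel k ρ i) ≤
      (Nat.card (ZSel k ρ (2 ^ Module.finrank k k')) * B) * (2 ^ r * c ^ 2) ^ i := by
    intro i
    obtain ⟨w1, w2⟩ := hW i
    obtain ⟨b1, b2⟩ := card_ker_betaW (k := k) (k' := k') (ρ := ρ) i (hZf _)
    have e4 := card_ker_range (betaW (k := k) (k' := k') (ρ := ρ) i)
    have e5 : Nat.card (betaW (k := k) (k' := k') (ρ := ρ) i).range ≤
        Nat.card (SmJ.L.WZSel k' ρ i) :=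
      Nat.card_le_card_of_injective _ Subtype.val_injective
    have hne : Nat.card (SmJ.L.WZSel k ρ i) ≠ 0 := by
      rw [e4]
      exact mul_ne_zero Nat.card_pos.ne' Nat.card_pos.ne'
    refine ⟨Nat.finite_of_card_ne_zero hne, ?_⟩
    rw [e4, mul_assoc]
    exact Nat.mul_le_mul b2 (e5.trans w2)
  exact ⟨r, hr1, hr', hasCorankW_of hG h2 hE6 hc hV hF hr' (fun i => (hW' i).1)
    fun i => (hW' i).2⟩

end const

end Pool.Agent.SmNH.Fnl
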