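import Pool.Agent.Lib.SmN.Stm
import Pool.Agent.Lib.SmN.Fin.Excl
import Pool.Agent.Lib.SmNH.Fin.JtoEH

/-!
# SMITH-U with heights: the final theorems on the quadratic twists in terms of the definitions of
`SmN/Stm.lean`
-/

set_option autoImplicit false

open Polynomial WeierstrassCurve

namespace Pool.Agent.SmNH.Fnl

open Pool.Agent.BSDFF (Place)
open Pool.Agent.GBC (ord val_eq val_le_iff ord_pow exists_ord)
open Pool.Agent.SmN.Fnl
open Pool.Agent.SmN.Stm (EvenAt oddDeg Twists BigGal OrdJ)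
open Pool.Agent.SmJ.R (OddDeg GoodP ZeroP OneP galP zeroOn_iff)

section conv

variable {k K : Type} [Field k] [Field K] [Algebra k K]

theorem evenAt_iff (v : Place k K) {d : K} (hd : d ≠ 0) : EvenAt v d ↔ Even (ord v d) := by
  constructor
  · rintro ⟨x, hx⟩
    have hx0 : x ≠ 0 := by
      rintro rfl
      rw [zero_pow two_ne_zero, map_zero] at hx
      exact hd ((Valuation.zero_iff _).1 hx)
    have hx2 : x ^ 2 ≠ 0 := pow_ne_zero 2 hx0
    have h1 : ord v d = ord v (x ^ 2) :=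
      le_antisymm ((val_le_iff v hx2 hd).1 hx.ge) ((val_le_iff v hd hx2).1 hx.le)
    rw [h1, ord_pow v hx0]
    exact even_two_mul _
  · rintro ⟨n, hn⟩
    obtain ⟨x, hx0, hx⟩ := exists_ord v n
    refine ⟨x, ?_⟩
    rw [val_eq v hd, val_eq v (pow_ne_zero 2 hx0), ord_pow v hx0, hx, hn]
    congr 1
    push_cast
    ring

theorem oddDeg_eq {d : K} (hd : d ≠ 0) : oddDeg k d = ramDeg k d := by
  rw [oddDeg, ramDeg]
  refine finsum_congr fun v => ?_
  by_cases h : Even (ord v d)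
  · rw [if_pos h, if_pos ((evenAt_iff v hd).2 h)]
  · rw [if_neg h, if_neg fun h' => h ((evenAt_iff v hd).1 h')]

theorem twists_eq {N : ℕ} {P Q : K → Prop} (h : ∀ d : Kˣ, P (d : K) ↔ Q (d : K)) :
    Twists k N P = TwLE k N Q := by
  ext c
  refine exists_congr fun d => and_congr_right fun _ => ?_
  rw [oddDeg_eq d.ne_zero, h d]

theorem twists_self (N : ℕ) (P : K → Prop) : Twists k N P = TwLE k N P :=
  twists_eq fun _ => Iff.rfl

theorem ex_even_iff (M : Finset (Place k K)) (d : Kˣ) :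
    (∃ v ∈ M, EvenAt v (d : K)) ↔ ∃ v ∈ M, Even (ord v (d : K)) :=
  exists_congr fun v => and_congr_right fun _ => evenAt_iff v d.ne_zero

end conv

section main

variable (k K : Type) [Field k] [Finite k] [Field K] [Algebra k K] [Algebra.EssFiniteType k K]

/-- **The quadratic twists of a Jacobian over a global function field.** -/
theorem final_J (hK : Algebra.trdeg k K = 1) {g : ℕ} (hg : 1 ≤ g)
    (hn : ((2 * g + 1).factorial : k) ≠ 0) (f : K[X]) [OddDeg f] (hm : f.Monic)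
    (hs : f.Separable) (hd : f.natDegree = 2 * g + 1) (hG : BigGal k f g) :
    (∀ N, (Twists k N fun _ : K => True).Finite) ∧
    (∀ ε : ℝ, 0 < ε → ∃ j N₀ : ℕ, ∀ N ≥ N₀,
      ((Twists k N fun d : K =>
        ¬ (GoodP k (f.scaleRoots d) j ∧ OrdJ k (f.scaleRoots d))).ncard : ℝ) ≤
        ε * (Twists k N fun _ : K => True).ncard) ∧
    ∀ M : Finset (Place k K), M.Nonempty → (∀ v ∈ M, SmN.Stm.NodeAt v f) →
      ∃ δ : ℝ, 0 < δ ∧ ∀ ε : ℝ, 0 < ε → ∃ N₀ : ℕ, ∀ N ≥ N₀,
        δ * (Twists k N fun _ : K => True).ncard ≤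
          (Twists k N fun d : K => ∃ v ∈ M, EvenAt v d).ncard ∧
        |((Twists k N fun d : K => (∃ v ∈ M, EvenAt v d) ∧ ZeroP k (f.scaleRoots d)).ncard : ℝ) -
          (Twists k N fun d : K => ∃ v ∈ M, EvenAt v d).ncard / 2| ≤
          ε * (Twists k N fun d : K => ∃ v ∈ M, EvenAt v d).ncard ∧
        |((Twists k N fun d : K => (∃ v ∈ M, EvenAt v d) ∧ OneP k (f.scaleRoots d)).ncard : ℝ) -
          (Twists k N fun d : K => ∃ v ∈ M, EvenAt v d).ncard / 2| ≤
          ε * (Twists k N fun d : K => ∃ v ∈ M, EvenAt v d).ncard := by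
  have h2 : (2 : K) ≠ 0 := two_ne_of hg (cast_ne hn)
  obtain ⟨h5, h7⟩ := twists_JH k K hK hg hn hm hs hd hG
  refine ⟨fun N => ?_, fun ε hε => ?_, fun M hM hnode => ?_⟩
  · rw [twists_self]
    exact h5 N
  · obtain ⟨j, N₀, h8⟩ := h7 ε hε
    refine ⟨j, N₀, fun N hN => ?_⟩
    rw [twists_self, twists_self]
    exact h8 N hN
  · have h9 := half_J hK hg hn hm hs hd (GalGeo.big (k := k) hG) hM hnode
    obtain ⟨δ, hδ, h10⟩ := h9.two_sided h5 fun d u hu h0 h1 => by
      have h11 := corank_sq h2 hm hs hd d.ne_zero hu ((zeroOn_iff _ _).1 h0).1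
      exact not_both h11 h1
    refine ⟨δ, hδ, fun ε hε => ?_⟩
    obtain ⟨N₀, h11⟩ := h10 ε hε
    refine ⟨N₀, fun N hN => ?_⟩
    rw [twists_self (P := fun _ : K => True),
      twists_eq (P := fun d : K => ∃ v ∈ M, EvenAt v d)
        (Q := fun d : K => ∃ v ∈ M, Even (ord v d)) fun d => ex_even_iff M d,
      twists_eq (P := fun d : K => (∃ v ∈ M, EvenAt v d) ∧ ZeroP k (f.scaleRoots d))
        (Q := fun d : K => (∃ v ∈ M, Even (ord v d)) ∧ ZeroP k (f.scaleRoots d))
        fun d => and_congr_left fun _ => ex_even_iff M d,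
      twists_eq (P := fun d : K => (∃ v ∈ M, EvenAt v d) ∧ OneP k (f.scaleRoots d))
        (Q := fun d : K => (∃ v ∈ M, Even (ord v d)) ∧ OneP k (f.scaleRoots d))
        fun d => and_congr_left fun _ => ex_even_iff M d]
    exact h11 N hN

omit [Finite k] [Algebra.EssFiniteType k K] in
/-- The corank of an elliptic curve is that of its Jacobian. -/
theorem corankP_of (h2 : (2 : K) ≠ 0) (W : WeierstrassCurve K) [Short W.toAffine] [W.IsElliptic]
    {r : ℕ} (h : Sm.L.HasCorank k (SeparableClosure K) W r) :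
    SmJ.L.HasCorank k (galP (SeparableClosure K) (cubW W.toAffine)) r := by
  obtain ⟨⟨e, he⟩, -⟩ := exists_isoE W h2 (SeparableClosure K)
  have h1 : SmJ.L.HasCorank k (Sm.L.gal (SeparableClosure K) W) r := by
    obtain ⟨B, hB⟩ := h
    refine ⟨B, fun i => ?_⟩
    rw [← sel_eq]
    exact hB i
  refine hasCorank_iso e.symm (fun s x => ?_) h1
  apply e.injective
  rw [AddEquiv.apply_symm_apply, he, AddEquiv.apply_symm_apply]

/-- **The quadratic twists of an elliptic curve over a global function field.** -/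
theorem final_E (hK : Algebra.trdeg k K = 1) (h6 : (6 : k) ≠ 0) (A B : K)
    (hG : BigGal k (X ^ 3 + C A * X + C B : K[X]) 1) :
    (∀ N, (Twists k N fun _ : K => True).Finite) ∧
    (∀ ε : ℝ, 0 < ε → ∃ j N₀ : ℕ, ∀ N ≥ N₀,
      ((Twists k N fun d : K =>
        ¬ (Sm.L.GoodC k (twE A B d) j ∧ Sm.L.OrdC k (twE A B d))).ncard : ℝ) ≤
        ε * (Twists k N fun _ : K => True).ncard) ∧
    ∀ M : Finset (Place k K), M.Nonempty →
      (∀ v ∈ M, SmN.Stm.NodeAt v (X ^ 3 + C A * X + C B : K[X])) →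
      ∃ δ : ℝ, 0 < δ ∧ ∀ ε : ℝ, 0 < ε → ∃ N₀ : ℕ, ∀ N ≥ N₀,
        δ * (Twists k N fun _ : K => True).ncard ≤
          (Twists k N fun d : K => ∃ v ∈ M, EvenAt v d).ncard ∧
        |((Twists k N fun d : K => (∃ v ∈ M, EvenAt v d) ∧
            Sm.L.Rank0C k (twE A B d)).ncard : ℝ) -
          (Twists k N fun d : K => ∃ v ∈ M, EvenAt v d).ncard / 2| ≤
          ε * (Twists k N fun d : K => ∃ v ∈ M, EvenAt v d).ncard ∧
        |((Twists k N fun d : K => (∃ v ∈ M, EvenAt v d) ∧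
            Sm.L.Corank1C k (twE A B d)).ncard : ℝ) -
          (Twists k N fun d : K => ∃ v ∈ M, EvenAt v d).ncard / 2| ≤
          ε * (Twists k N fun d : K => ∃ v ∈ M, EvenAt v d).ncard := by
  have hG' : Nat.card (X ^ 3 + C A * X + C B : K[X]).Gal = 6 ∧
      ∀ c s : K, IsAlgebraic k c → -4 * A ^ 3 - 27 * B ^ 2 ≠ c * s ^ 2 := by
    rcases hG with ⟨h1, h3⟩ | ⟨h1, -⟩
    · refine ⟨h1, fun c s hc => ?_⟩
      rw [← discr_short']
      exact h3 c s hc
    · exact absurd h1 (by norm_num)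
  obtain ⟨hG1, hdisc⟩ := hG'
  obtain ⟨h2, h3, h4⟩ := tw_facts_E (k := k) h6 hG1
  obtain ⟨h5, h7⟩ := twists_EH hK h6 hG1 hdisc
  refine ⟨fun N => ?_, fun ε hε => ?_, fun M hM hnode => ?_⟩
  · rw [twists_self]
    exact h5 N
  · obtain ⟨j, N₀, h8⟩ := h7 ε hε
    refine ⟨j, N₀, fun N hN => ?_⟩
    rw [twists_self, twists_self]
    exact h8 N hN
  · have h9 := half_E hK h6 hG1 hM hnode
    obtain ⟨δ, hδ, h10⟩ := h9.two_sided h5 fun d u hu h0 h1 => by
      have i1 : (twE A B (d : K)).IsElliptic := twE_elliptic h2 h4 d.ne_zero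
      have i2 : (twE A B ((d : K) * u ^ 2)).IsElliptic :=
        twE_elliptic h2 h4 (mul_ne_zero d.ne_zero (pow_ne_zero 2 hu))
      have key : ∀ (F G : K[X]) (_ : OddDeg F) (_ : OddDeg G) (r : ℕ), F = G →
          SmJ.L.HasCorank k (galP (SeparableClosure K) F) r →
          SmJ.L.HasCorank k (galP (SeparableClosure K) G) r := by
        rintro F _ _ _ r rfl h
        exact h
      have e0 := key _ _ _ (oddDeg_scale _ _) _ (cubW_twE A B (d : K)) (corankP_of k K h2 _ h0.1)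
      have e1 := key _ _ _ (oddDeg_scale _ _) _ (cubW_twE A B ((d : K) * u ^ 2))
        (corankP_of k K h2 _ h1.1)
      exact not_both (corank_sq (g := 1) h2 (monic_short A B) (separable_short A B h4)
        (natDegree_short A B) d.ne_zero hu e0) e1
    refine ⟨δ, hδ, fun ε hε => ?_⟩
    obtain ⟨N₀, h11⟩ := h10 ε hε
    refine ⟨N₀, fun N hN => ?_⟩
    rw [twists_self (P := fun _ : K => True),
      twists_eq (P := fun d : K => ∃ v ∈ M, EvenAt v d)
        (Q := fun d : K => ∃ v ∈ M, Even (ord v d)) fun d => ex_even_iff M d,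
      twists_eq (P := fun d : K => (∃ v ∈ M, EvenAt v d) ∧ Sm.L.Rank0C k (twE A B d))
        (Q := fun d : K => (∃ v ∈ M, Even (ord v d)) ∧ Sm.L.Rank0C k (twE A B d))
        fun d => and_congr_left fun _ => ex_even_iff M d,
      twists_eq (P := fun d : K => (∃ v ∈ M, EvenAt v d) ∧ Sm.L.Corank1C k (twE A B d))
        (Q := fun d : K => (∃ v ∈ M, Even (ord v d)) ∧ Sm.L.Corank1C k (twE A B d))
        fun d => and_congr_left fun _ => ex_even_iff M d]
    exact h11 N hN

end main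

end Pool.Agent.SmNH.Fnl
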