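import Pool.Agent.Lib.SmNH.Fin.Done
import Pool.Agent.Lib.SmN.Stm2

/-!
# SMITH-U with heights: the final theorems on the quadratic twists in terms of densities
-/

set_option autoImplicit false

open Polynomial WeierstrassCurve

namespace Pool.Agent.SmNH.Fnl

open Pool.Agent.BSDFF (Place)
open Pool.Agent.SmN.Stm
open Pool.Agent.SmJ.R (OddDeg GoodP ZeroP OneP)
open Pool.Agent.Sm.L

variable (k K : Type) [Field k] [Finite k] [Field K] [Algebra k K] [Algebra.EssFiniteType k K]

/-- **The quadratic twists of a Jacobian over a global function field.** -/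
theorem fin_J (hK : Algebra.trdeg k K = 1) {g : ℕ} (hg : 1 ≤ g)
    (hn : ((2 * g + 1).factorial : k) ≠ 0) (f : K[X]) [OddDeg f] (hm : f.Monic)
    (hs : f.Separable) (hd : f.natDegree = 2 * g + 1) (hG : BigGal k f g) :
    (∀ N, (Twists k N fun _ : K => True).Finite) ∧
    AlmostAll k (fun j (d : K) => GoodP k (f.scaleRoots d) j ∧ OrdJ k (f.scaleRoots d)) ∧
    ∀ M : Finset (Place k K), M.Nonempty → (∀ v ∈ M, Node v f) →
      Halves k (fun d : K => ∃ v ∈ M, EvenAt v d) (fun d => ZeroP k (f.scaleRoots d))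
        (fun d => OneP k (f.scaleRoots d)) := by
  obtain ⟨h1, h2, h3⟩ := final_J k K hK hg hn f hm hs hd hG
  exact ⟨h1, h2, fun M hM hv => halves_of k (h3 M hM fun v h => (hv v h).nodeAt)⟩

/-- **The quadratic twists of an elliptic curve over a global function field.** -/
theorem fin_E (hK : Algebra.trdeg k K = 1) (h6 : (6 : k) ≠ 0) (A B : K)
    (hG : BigGal k (X ^ 3 + C A * X + C B : K[X]) 1) :
    (∀ N, (Twists k N fun _ : K => True).Finite) ∧
    AlmostAll k (fun j (d : K) => GoodC k (crv A B d) j ∧ OrdC k (crv A B d)) ∧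
    ∀ M : Finset (Place k K), M.Nonempty →
      (∀ v ∈ M, Node v (X ^ 3 + C A * X + C B : K[X])) →
      Halves k (fun d : K => ∃ v ∈ M, EvenAt v d) (fun d => Rank0C k (crv A B d))
        (fun d => Corank1C k (crv A B d)) := by
  obtain ⟨h1, h2, h3⟩ := final_E k K hK h6 A B hG
  exact ⟨h1, h2, fun M hM hv => halves_of k (h3 M hM fun v h => (hv v h).nodeAt)⟩

end Pool.Agent.SmNH.Fnl
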