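import Pool.Agent.Lib.SmNH.Fin.BridgeW
import Pool.Agent.Lib.SmNH.Link.Main
import Pool.Agent.Lib.SmNH.StmtI
import Pool.Agent.Lib.SmJ.L.OrdW
import Pool.Agent.Lib.SmN.Fin.GoodE
import Pool.Agent.Lib.SmN.Fin.Trans

/-!
# HEIGHTS over SMITH-U, final layer: the order of vanishing for one twist, from the heights of one level

`ordOn_N`: for a Galois module `M'` which is the twist by `χ` of a module containing the abstract `V`:
if the corank is at most one and no rigid Selmer element of level `s` with top outside of the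
coboundaries has height zero, then `OrdOn k ρ'`. Transport along isomorphisms (`ordOn_iso`) and the
version for Weierstrass curves (`ordOnE_of`).
-/

set_option autoImplicit false

open Pool.Agent.BSDFF.MW

namespace Pool.Agent.SmNH.Fnl

open Pool.Agent.SmJ.L Pool.Agent.GBU
open Pool.Agent.Sm.L (IsDeg)
open Pool.Agent.SmN (Sys tw dl sgn)
open Pool.Agent.SmN.Fnl (funE quoE subE he_symm hasCorank_iso)

section main

variable {k K Ω : Type} [Field k] [Field K] [Field Ω] [Algebra k K] [Algebra K Ω]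
variable {M M' : Type} [AddCommGroup M] [AddCommGroup M']
variable {ρ : (Ω ≃ₐ[K] Ω) → M →+ M} {ρ' : (Ω ≃ₐ[K] Ω) → M' →+ M'}

/-- The order of vanishing for one twist. -/
theorem ordOn_N [Finite k] [IsGalois K Ω] [IsSepClosed Ω] (h2 : (2 : k) ≠ 0)
    (h2K : (2 : K) ≠ 0) (h' : GMod ρ')
    {V V1 Pl A : Type} [AddCommGroup V] [DistribMulAction (Ω ≃ₐ[K] Ω) V]
    [AddCommGroup V1] [Module (ZMod 2) V1] [AddCommGroup A] [DistribMulAction (Ω ≃ₐ[K] Ω) A]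
    (φ : M ≃+ M') (χ : (Ω ≃ₐ[K] Ω) → ZMod 2)
    (hφ : ∀ (s : Ω ≃ₐ[K] Ω) (Q : M), ρ' s (φ Q) = φ (sgn (χ s) • ρ s Q))
    (inc : V →+ M) (hinc : Function.Injective inc)
    (hinc' : ∀ Q : M, (∃ i : ℕ, (2 : ℕ) ^ i • Q = 0) → ∃ x, inc x = Q)
    (heq : ∀ (s : Ω ≃ₐ[K] Ω) (x : V), inc (s • x) = ρ s (inc x))
    (hact : ∀ j : ℕ, ∃ N ∈ NP K Ω, ∀ s ∈ N, ∀ Q : M', (2 : ℕ) ^ j • Q = 0 → ρ' s Q = Q)
    (S : Sys (Ω ≃ₐ[K] Ω) V V1 Pl) (hNN : S.NN = NP K Ω)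
    (hDv : ∀ v : Pl, ∃ w : ValuationSubring Ω, w ≠ ⊤ ∧
      (∀ c : k, algebraMap K Ω (algebraMap k K c) ∈ w) ∧ S.D v = w.decompositionSubgroup K)
    (hE6 : E6Prop k ρ') {c : ℕ} (hc : 0 < c) (hV1 : Nat.card V1 = c)
    (hV : ∀ i, Nat.card (Gn M' (2 ^ i)) = c ^ i) {F : ℕ}
    (hF : ∀ i, Nat.card (Gn (Rat ρ') (2 ^ i)) ≤ F)
    (heqv : ∀ i, Nonempty (ZSel k ρ' (2 ^ i) ≃ {x // S.IsSel χ i x}))
    (hOk : S.Ok) {H : HData V A Pl} (hH : HOk S H)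
    {dg : ℕ → (Ω ≃ₐ[K] Ω) → ℕ} (hdg : ∀ m s, IsDeg k Ω m s (dg m s))
    (hDeg : DegOk S H dg) (hchi : S.HomG χ) {r : ℕ} (hr1 : r ≤ 1)
    (hr : HasCorank k ρ' r) {s : ℕ} (hs : 1 ≤ s) (hq : ¬ ∃ y, IsZ S H χ s y) :
    OrdOn k ρ' := by
  obtain ⟨hZf, C, hC⟩ := zsel_of_hasCorank h' hc hV hr
  have hfin : ∀ i, Finite {x // S.IsSel χ i x} := by
    intro i
    obtain ⟨e⟩ := heqv i
    have := hZf i
    exact Finite.of_equiv _ e
  have hcard' : ∀ i, Nat.card {x // S.IsSel χ i x} ≤ C * (2 ^ r * c) ^ i := by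
    intro i
    obtain ⟨e⟩ := heqv i
    rw [← Nat.card_congr e]
    exact hC i
  have l0 := link_card0 hOk hDeg.deg hDeg.unr hchi hfin
  have l1 := link_card hOk hH hDeg hchi hfin s hs
    (fun y hy hz hq0 => hq ⟨y, hy, hz, hq0⟩)
  rw [hV1] at l0 l1
  obtain ⟨C', hC', hfin'⟩ : ∃ C' : ℕ, (∀ i, Nat.card {p : ((Ω ≃ₐ[K] Ω) → V) ×
      ((Ω ≃ₐ[K] Ω) → V) // IsWSel S dg χ i p.1 p.2} ≤ C' * (2 ^ r * c ^ 2) ^ i) ∧
      ∀ i, Finite {p : ((Ω ≃ₐ[K] Ω) → V) × ((Ω ≃ₐ[K] Ω) → V) //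
        IsWSel S dg χ i p.1 p.2} := by
    interval_cases r
    · obtain ⟨C', hC'⟩ := l0 ⟨C, fun i => by simpa using hcard' i⟩
      refine ⟨C', fun i => (hC' i).2.trans (le_of_eq ?_), fun i => (hC' i).1⟩
      rw [pow_zero, one_mul]
    · obtain ⟨C', hC'⟩ := l1 ⟨C, fun i => by simpa using hcard' i⟩
      refine ⟨C', fun i => (hC' i).2.trans (le_of_eq ?_), fun i => (hC' i).1⟩
      rw [pow_one]
  have hb1 := fun i => bridgeNW (k := k) h2 h2K h' φ χ hφ inc hinc hinc' heq hact S hNN hDv hdg i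
  refine ⟨r, hr1, hr, hasCorankW_of h' h2 hE6 hc hV hF hr (fun i => ?_) (C := C') fun i => ?_⟩
  · obtain ⟨f, hf⟩ := hb1 i
    have := hfin' i
    exact Finite.of_injective f hf
  · obtain ⟨f, hf⟩ := hb1 i
    have := hfin' i
    exact (Nat.card_le_card_of_injective f hf).trans (hC' i)

end main

section iso

variable {k K Ω : Type} [Field k] [Field K] [Field Ω] [Algebra k K] [Algebra K Ω]
variable {M M' : Type} [AddCommGroup M] [AddCommGroup M'] {ρ : (Ω ≃ₐ[K] Ω) → M →+ M}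
  {ρ' : (Ω ≃ₐ[K] Ω) → M' →+ M'} (e : M ≃+ M') (he : ∀ s x, e (ρ s x) = ρ' s (e x))

/-- The isomorphism of the groups of pairs of cochains. -/
def funW : (((Ω ≃ₐ[K] Ω) → M) × ((Ω ≃ₐ[K] Ω) → M)) ≃+
    (((Ω ≃ₐ[K] Ω) → M') × ((Ω ≃ₐ[K] Ω) → M')) :=
  (funE (K := K) (Ω := Ω) e).prodCongr (funE e)

include he

theorem isWSel_map {n : ℕ} {p : ((Ω ≃ₐ[K] Ω) → M) × ((Ω ≃ₐ[K] Ω) → M)}
    (h : SmJ.L.IsWSel k ρ n p) : SmJ.L.IsWSel k ρ' n (funW e p) := by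
  refine ⟨fun s t => ?_, fun s t d hd => ?_, fun s => ⟨?_, ?_⟩, ?_, fun w hw hc => ?_⟩
  · change e (p.1 (s * t)) = e (p.1 s) + ρ' s (e (p.1 t))
    rw [h.cocycle, map_add, he]
  · change e (p.2 (s * t)) = e (p.2 s) + ρ' s (e (p.2 t)) + d • ρ' s (e (p.1 t))
    rw [h.cocycle' s t d hd, map_add, map_add, map_nsmul, he, he]
  · change 2 ^ n • e (p.1 s) = 0
    rw [← map_nsmul, (h.tors s).1, map_zero]
  · change 2 ^ n • e (p.2 s) = 0
    rw [← map_nsmul, (h.tors s).2, map_zero]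
  · obtain ⟨L, hL, h1⟩ := h.cont
    exact ⟨L, hL, fun s t hst => ⟨congrArg e (h1 s t hst).1, congrArg e (h1 s t hst).2⟩⟩
  · obtain ⟨N, Q, R, hQ, hR, hQR⟩ := h.loc w hw hc
    refine ⟨N, e Q, e R, by rw [← map_nsmul, hQ, map_zero], by rw [← map_nsmul, hR, map_zero],
      fun s hs => ⟨?_, fun d hd => ?_⟩⟩
    · change e (p.1 s) = _
      rw [(hQR s hs).1, map_sub, he]
    · change e (p.2 s) = _
      rw [(hQR s hs).2 d hd, map_add, map_sub, map_nsmul, he, he]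

theorem mem_wzsel (n : ℕ) (p : ((Ω ≃ₐ[K] Ω) → M) × ((Ω ≃ₐ[K] Ω) → M)) :
    funW e p ∈ SmJ.L.WZSel k ρ' n ↔ p ∈ SmJ.L.WZSel k ρ n := by
  constructor
  · intro h
    have h1 := isWSel_map (k := k) e.symm (fun s x => he_symm e he s x) h
    have h2 : funW e.symm (funW e p) = p := (funW e).symm_apply_apply p
    rw [h2] at h1
    exact h1
  · exact fun h => isWSel_map e he h

theorem mem_wbsel (n : ℕ) (p : ((Ω ≃ₐ[K] Ω) → M) × ((Ω ≃ₐ[K] Ω) → M)) :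
    funW e p ∈ WBSel k ρ' n ↔ p ∈ WBSel k ρ n := by
  constructor
  · rintro ⟨S, T, hS, hT, h⟩
    refine ⟨e.symm S, e.symm T, by rw [← map_nsmul, hS, map_zero],
      by rw [← map_nsmul, hT, map_zero], fun s => ⟨?_, fun d hd => ?_⟩⟩
    · apply e.injective
      have h1 : e (p.1 s) = ρ' s S - S := (h s).1
      rw [h1, map_sub, he, AddEquiv.apply_symm_apply]
    · apply e.injective
      have h1 : e (p.2 s) = ρ' s T - T + d • ρ' s S := (h s).2 d hd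
      rw [h1, map_add, map_sub, map_nsmul, he, he, AddEquiv.apply_symm_apply,
        AddEquiv.apply_symm_apply]
  · rintro ⟨S, T, hS, hT, h⟩
    refine ⟨e S, e T, by rw [← map_nsmul, hS, map_zero],
      by rw [← map_nsmul, hT, map_zero], fun s => ⟨?_, fun d hd => ?_⟩⟩
    · change e (p.1 s) = _
      rw [(h s).1, map_sub, he]
    · change e (p.2 s) = _
      rw [(h s).2 d hd, map_add, map_sub, map_nsmul, he, he]

theorem card_wselE (n : ℕ) : Nat.card (SmJ.L.WSel k ρ n) = Nat.card (SmJ.L.WSel k ρ' n) :=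
  Nat.card_congr (quoE (funW e) (mem_wzsel e he n) (mem_wbsel e he n)).toEquiv

theorem hasCorankW_iso {r : ℕ} (h : SmJ.L.HasCorankW k ρ r) : SmJ.L.HasCorankW k ρ' r := by
  obtain ⟨B, hB⟩ := h
  refine ⟨B, fun i => ?_⟩
  rw [← card_wselE e he]
  exact hB i

/-- `OrdOn` depends only on the Galois module. -/
theorem ordOn_iso (h : OrdOn k ρ) : OrdOn k ρ' := by
  obtain ⟨r, hr, h1, h2⟩ := h
  exact ⟨r, hr, hasCorank_iso e he h1, hasCorankW_iso e he h2⟩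

end iso

section ell

variable (k : Type) {K : Type} (Ω : Type) [Field k] [Field K] [Algebra k K] [Field Ω] [Algebra K Ω]
  (W : WeierstrassCurve K)

theorem wzsel_eq (n : ℕ) : Sm.L.WZSel k Ω W n = SmJ.L.WZSel k (Sm.L.gal Ω W) n := by
  ext p
  constructor
  · intro h
    exact ⟨h.cocycle, h.cocycle', h.tors, h.cont, h.loc⟩
  · intro h
    exact ⟨h.cocycle, h.cocycle', h.tors, h.cont, h.loc⟩

theorem wbsel_eq (n : ℕ) : Sm.L.WBSel k Ω W n = SmJ.L.WBSel k (Sm.L.gal Ω W) n := rfl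

theorem wsel_eq (n : ℕ) : Sm.L.WSel k Ω W n = SmJ.L.WSel k (Sm.L.gal Ω W) n := by
  unfold Sm.L.WSel SmJ.L.WSel
  rw [wzsel_eq, wbsel_eq]

/-- The version for Weierstrass curves. -/
theorem ordOnE_of (h : SmJ.L.OrdOn k (Sm.L.gal Ω W)) : Sm.L.OrdOn k Ω W := by
  obtain ⟨r, hr, ⟨B, hB⟩, ⟨B', hB'⟩⟩ := h
  refine ⟨r, hr, ⟨B, fun i => ?_⟩, ⟨B', fun i => ?_⟩⟩
  · rw [SmN.Fnl.sel_eq]
    exact hB i
  · rw [wsel_eq]
    exact hB' i

end ell

end Pool.Agent.SmNH.Fnl
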