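import Pool.Agent.Lib.SmJ.L.CountW
import Pool.Agent.Lib.SmNH.Link.Main
import Pool.Agent.Lib.SmNH.StmtI

/-!
# HEIGHTS over SMITH-U: the order of vanishing

If the Selmer groups of `M'[2 ^ ∞]` have corank `r ≤ 1` and the height form of some level has no zero
whose top is not a coboundary, then the Selmer groups of `M'[2 ^ ∞]` and of
`W = M'[2 ^ ∞] ⊗ Z[ε] / ε ^ 2` have the same corank `r`.
-/

set_option autoImplicit false

namespace Pool.Agent.SmNH.Fnl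

open Pool.Agent.BSDFF.MW Pool.Agent.SmJ.L
open Pool.Agent.Sm.L (IsDeg)

section

variable {k K Ω : Type} [Field k] [Field K] [Field Ω] [Algebra k K] [Algebra K Ω]
variable {M' : Type} [AddCommGroup M'] {ρ' : (Ω ≃ₐ[K] Ω) → M' →+ M'}

/-- The number of Selmer cocycles in terms of the corank. -/
theorem zsel_of_corank (hG : GMod ρ') {c : ℕ} (hc : 0 < c)
    (hV : ∀ i, Nat.card (Gn M' (2 ^ i)) = c ^ i) {r : ℕ} (hr : HasCorank k ρ' r) :
    (∀ i, Finite (ZSel k ρ' (2 ^ i))) ∧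
    ∃ C : ℕ, ∀ i, Nat.card (ZSel k ρ' (2 ^ i)) ≤ C * (2 ^ r * c) ^ i := by
  obtain ⟨B, hB⟩ := hr
  have key : ∀ i, Nat.card (BSel ρ' (2 ^ i)) ≠ 0 ∧ Nat.card (BSel ρ' (2 ^ i)) ≤ c ^ i := by
    intro i
    have e2 := card_bsel (ρ := ρ') (2 ^ i)
    rw [hV] at e2
    have h0 : 0 < c ^ i := by positivity
    constructor
    · intro h
      rw [h, mul_zero] at e2
      omega
    · have hF : 0 < Nat.card (Gn (Rat ρ') (2 ^ i)) := by
        rcases Nat.eq_zero_or_pos (Nat.card (Gn (Rat ρ') (2 ^ i))) with h | h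
        · rw [h, zero_mul] at e2
          omega
        · exact h
      rw [e2]
      exact Nat.le_mul_of_pos_left _ hF
  refine ⟨fun i => ?_, B, fun i => ?_⟩
  · apply Nat.finite_of_card_ne_zero
    rw [card_zsel hG]
    refine mul_ne_zero (fun h => ?_) (key i).1
    have h3 := (hB i).2
    rw [h, mul_zero] at h3
    exact absurd h3 (not_le.mpr (by positivity))
  · rw [card_zsel hG]
    calc _ ≤ (B * 2 ^ (r * i)) * c ^ i := Nat.mul_le_mul (hB i).1 (key i).2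
      _ = _ := by rw [mul_pow, ← pow_mul]; ring

variable {V V1 Pl MU : Type} [AddCommGroup V] [DistribMulAction (Ω ≃ₐ[K] Ω) V]
  [AddCommGroup V1] [Module (ZMod 2) V1] [AddCommGroup MU] [DistribMulAction (Ω ≃ₐ[K] Ω) MU]

/-- **The order of vanishing**: the Selmer groups of `M'[2 ^ ∞]` and of `W` have the same corank. -/
theorem ordOn_of_heights [Finite k] [IsSepClosed Ω] [Algebra.IsAlgebraic K Ω]
    (h2 : (2 : k) ≠ 0) (hG : GMod ρ') (hE6 : E6Prop k ρ')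
    {S : SmN.Sys (Ω ≃ₐ[K] Ω) V V1 Pl} (hOk : S.Ok) {H : HData V MU Pl} (hH : HOk S H)
    {dg : ℕ → (Ω ≃ₐ[K] Ω) → ℕ} (hDeg : DegOk S H dg)
    {χ : (Ω ≃ₐ[K] Ω) → ZMod 2} (hchi : S.HomG χ)
    (hbZ : ∀ i, Nonempty (ZSel k ρ' (2 ^ i) ≃ {x // S.IsSel χ i x}))
    (hbW : ∀ i, ∃ f : WZSel k ρ' i → {p : ((Ω ≃ₐ[K] Ω) → V) × ((Ω ≃ₐ[K] Ω) → V) //
      IsWSel S dg χ i p.1 p.2}, Function.Injective f)
    {c : ℕ} (hc : 0 < c) (hV : ∀ i, Nat.card (Gn M' (2 ^ i)) = c ^ i) (hV1 : Nat.card V1 = c)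
    {F : ℕ} (hF : ∀ i, Nat.card (Gn (Rat ρ') (2 ^ i)) ≤ F)
    {r : ℕ} (hr1 : r ≤ 1) (hr : HasCorank k ρ' r) {s : ℕ} (hs : 1 ≤ s)
    (hq : ¬ ∃ y, IsZ S H χ s y) : OrdOn k ρ' := by
  obtain ⟨hZf, C, hC⟩ := zsel_of_corank hG hc hV hr
  have hfin : ∀ i, Finite {x // S.IsSel χ i x} := by
    intro i
    obtain ⟨e⟩ := hbZ i
    have := hZf i
    exact Finite.of_equiv _ e
  have hcard' : ∀ i, Nat.card {x // S.IsSel χ i x} ≤ C * (2 ^ r * c) ^ i := by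
    intro i
    obtain ⟨e⟩ := hbZ i
    rw [← Nat.card_congr e]
    exact hC i
  have l0 := link_card0 hOk hDeg.deg hDeg.unr hchi hfin
  have l1 := link_card hOk hH hDeg hchi hfin s hs
    (fun y hy hz hq0 => hq ⟨y, hy, hz, hq0⟩)
  rw [hV1] at l0 l1
  obtain ⟨C', hC', hfin'⟩ : ∃ C' : ℕ, (∀ i, Nat.card {p : ((Ω ≃ₐ[K] Ω) → V) ×
      ((Ω ≃ₐ[K] Ω) → V) // IsWSel S dg χ i p.1 p.2} ≤ C' * (2 ^ r * c ^ 2) ^ i) ∧
      ∀ i, Finite {p : ((Ω ≃ₐ[K] Ω) → V) × ((Ω ≃ₐ[K] Ω) → V) //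
        IsWSel S dg χ i p.1 p.2} := by
    interval_cases r
    · obtain ⟨C', hC'⟩ := l0 ⟨C, fun i => by simpa using hcard' i⟩
      refine ⟨C', fun i => (hC' i).2.trans (le_of_eq ?_), fun i => (hC' i).1⟩
      rw [pow_zero, one_mul]
    · obtain ⟨C', hC'⟩ := l1 ⟨C, fun i => by simpa using hcard' i⟩
      refine ⟨C', fun i => (hC' i).2.trans (le_of_eq ?_), fun i => (hC' i).1⟩
      rw [pow_one]
  refine ⟨r, hr1, hr, hasCorankW_of hG h2 hE6 hc hV hF hr (fun i => ?_) (C := C') fun i => ?_⟩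
  · obtain ⟨f, hf⟩ := hbW i
    have := hfin' i
    exact Finite.of_injective f hf
  · obtain ⟨f, hf⟩ := hbW i
    have := hfin' i
    exact (Nat.card_le_card_of_injective f hf).trans (hC' i)

end

end Pool.Agent.SmNH.Fnl
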