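import Pool.Agent.Lib.SmNH.Fin.AllH

/-!
# HEIGHTS over SMITH-U, final layer: from the arithmetic facts to the quadratic twists

`all_absH`: for all but a share `ε` of the quadratic characters `c` the number of the Selmer cocycles
of level `m` is less than `(4 #V1) ^ m` and there is no rigid Selmer element of level `m` with top
outside of the coboundaries and of height zero. `tw_absH`: the same for the classes in `Kˣ / Kˣ²`.
-/

set_option autoImplicit false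

open Finset

namespace Pool.Agent.SmNH.Fnl

open Pool.Agent.SmN Pool.Agent.SmN.Ch Pool.Agent.SmN.Fnl Pool.Agent.BSDFF Pool.Agent.GBU

section abs

variable {G V V1 Pl M : Type} [Group G] [AddCommGroup V] [DistribMulAction G V]
  [AddCommGroup V1] [Module (ZMod 2) V1] [AddCommGroup M] [DistribMulAction G M]
  {S : Sys G V V1 Pl} {H : HData V M Pl} {T : Set Pl} {deg : Pl → ℕ} {Geo : Subgroup G} {fr : G}
  {q a C m0 : ℕ}

/-- The number of the Selmer cocycles of level `m` is less than `(4 #V1) ^ m` and the height form of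
level `m` has no zero with top outside of the coboundaries. -/
def SmallH (S : Sys G V V1 Pl) (H : HData V M Pl) (m : ℕ) (c : G → ZMod 2) : Prop :=
  SmallS S m c ∧ ¬ ∃ y, IsZ S H c m y

/-- All quadratic characters. -/
theorem all_absH [Nontrivial V1] (hT : T.Finite) (h : AOk S T deg q Geo fr a C m0)
    (hM : ∃ cd : CData S (XX T deg), cd.pl = Subtype.val ∧ ∀ chi0, XT S T chi0 →
      CdH ({ cd with chi0 := chi0 } : CData S (XX T deg)) H ∧
      LHThm ({ cd with chi0 := chi0 } : CData S (XX T deg)) H) :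
    (∀ n, Finite {c : {c : G → ZMod 2 // S.HomG c} // rdeg S deg c.1 ≤ n}) ∧
    ∀ ε : ℝ, 0 < ε → ∃ m₁ : ℕ, ∀ m ≥ m₁, ∃ n₀ : ℕ, ∀ n ≥ n₀,
      (Nat.card {c : {c : G → ZMod 2 // S.HomG c} //
        rdeg S deg c.1 ≤ n ∧ ¬ SmallH S H m c.1} : ℝ) ≤
        ε * Nat.card {c : {c : G → ZMod 2 // S.HomG c} // rdeg S deg c.1 ≤ n} := by
  obtain ⟨hfin, h1⟩ := all_abs hT h
  have h2 := all_of_mainH h.ok hT h.lagF h.xok hM
  refine ⟨hfin, fun ε hε => ?_⟩
  obtain ⟨m₁, hm₁⟩ := h1 (ε / 2) (by linarith)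
  obtain ⟨m₂, hm₂⟩ := h2 (ε / 2) (by linarith)
  refine ⟨max m₁ m₂, fun m hm => ?_⟩
  obtain ⟨n₁, hn₁⟩ := hm₁ m ((le_max_left _ _).trans hm)
  obtain ⟨n₂, hn₂⟩ := hm₂ m ((le_max_right _ _).trans hm)
  refine ⟨max n₁ n₂, fun n hn => ?_⟩
  have e1 := hn₁ n ((le_max_left _ _).trans hn)
  have e2 := hn₂ n ((le_max_right _ _).trans hn)
  have hfn : Finite {c : {c : G → ZMod 2 // S.HomG c} // rdeg S deg c.1 ≤ n} := hfin n
  set A : Set {c : G → ZMod 2 // S.HomG c} := {c | rdeg S deg c.1 ≤ n} with hA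
  have hAf : A.Finite := @Set.toFinite _ A hfn
  set B1 : Set {c : G → ZMod 2 // S.HomG c} := {c | rdeg S deg c.1 ≤ n ∧ ¬ SmallS S m c.1}
  set B2 : Set {c : G → ZMod 2 // S.HomG c} := {c | rdeg S deg c.1 ≤ n ∧ ∃ y, IsZ S H c.1 m y}
  set B : Set {c : G → ZMod 2 // S.HomG c} := {c | rdeg S deg c.1 ≤ n ∧ ¬ SmallH S H m c.1}
  have hB1 : B1.Finite := hAf.subset fun c hc => hc.1
  have hB2 : B2.Finite := hAf.subset fun c hc => hc.1
  have hB : B ⊆ B1 ∪ B2 := by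
    rintro c ⟨h3, h4⟩
    by_cases h5 : SmallS S m c.1
    · exact Or.inr ⟨h3, not_not.1 fun h6 => h4 ⟨h5, h6⟩⟩
    · exact Or.inl ⟨h3, h5⟩
  have e3 : B.ncard ≤ B1.ncard + B2.ncard :=
    (Set.ncard_le_ncard hB (hB1.union hB2)).trans (Set.ncard_union_le _ _)
  have e3' : (B.ncard : ℝ) ≤ B1.ncard + B2.ncard := by exact_mod_cast e3
  have e4 : (B1.ncard : ℝ) ≤ ε / 2 * A.ncard := e1
  have e5 : (B2.ncard : ℝ) ≤ ε / 2 * A.ncard := e2
  have e6 : (B.ncard : ℝ) ≤ ε * A.ncard := by linarith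
  exact e6

end abs

section tw

variable {k K : Type} [Field k] [Field K] [Algebra k K] {Om : Type} [Field Om] [Algebra K Om]
  [IsSepClosure K Om] {V V1 M : Type} [AddCommGroup V] [DistribMulAction (Om ≃ₐ[K] Om) V]
  [AddCommGroup V1] [Module (ZMod 2) V1] [AddCommGroup M] [DistribMulAction (Om ≃ₐ[K] Om) M]
  {S : Sys (Om ≃ₐ[K] Om) V V1 (Place k K)} {H : HData V M (Place k K)}
  {T : Set (Place k K)} {Geo : Subgroup (Om ≃ₐ[K] Om)} {fr : Om ≃ₐ[K] Om} {q a C m0 : ℕ}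

/-- All quadratic twists. -/
theorem tw_absH [Nontrivial V1] (h2 : (2 : K) ≠ 0) (hNN : S.NN = NP K Om)
    (HL : LocVals S.sg S.phi) (hT : T.Finite) (h : AOk S T Place.degree q Geo fr a C m0)
    (hM : ∃ cd : CData S (XX T Place.degree), cd.pl = Subtype.val ∧ ∀ chi0, XT S T chi0 →
      CdH ({ cd with chi0 := chi0 } : CData S (XX T Place.degree)) H ∧
      LHThm ({ cd with chi0 := chi0 } : CData S (XX T Place.degree)) H)
    (Good : ℕ → K → Prop)
    (hgood : ∀ (m : ℕ) (d : Kˣ), 1 ≤ m → SmallS S m (Pool.Agent.Lib.SmD.chi K (d : K)) →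
      (¬ ∃ y, IsZ S H (Pool.Agent.Lib.SmD.chi K (d : K)) m y) → Good m (d : K)) :
    (∀ N, (TwLE k N (fun _ : K => True)).Finite) ∧
    ∀ ε : ℝ, 0 < ε → ∃ j N₀ : ℕ, ∀ N ≥ N₀,
      ((TwLE k N (fun d : K => ¬ Good j d)).ncard : ℝ) ≤
        ε * (TwLE k N (fun _ : K => True)).ncard := by
  obtain ⟨h1, h3⟩ := all_absH hT h hM
  exact all_twists h2 hNN HL h1 Good (SmallH S H) (fun m d hm hs => hgood m d hm hs.1 hs.2) h3

end tw

end Pool.Agent.SmNH.Fnl
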