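import Pool.Agent.Lib.SmN.Fin.TwN
import Pool.Agent.Lib.SmNH.Fin.ConstW
import Pool.Agent.Lib.SmNH.Fin.TotW
import Pool.Agent.Lib.SmNH.Inst.HOkK
import Pool.Agent.Lib.Ht.RK.Inst

/-!
# HEIGHTS over SMITH-U, final layer: the order of vanishing for the Jacobian of the quadratic twist

`ord_of_smallH`: if the number of the Selmer cocycles of level `j` is less than `(4 #V1) ^ j` and the
height form of level `j` has no zero with top outside of the coboundaries, then the Selmer groups of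
`V = J(Ω)[2 ^ ∞]` and of `V ⊗ Z[ε] / ε ^ 2` have the same corank `r ≤ 1`.
-/

set_option autoImplicit false

open Polynomial Pool.Agent.BSDFF Pool.Agent.BSDFF.MW

namespace Pool.Agent.SmNH.Fnl

open Pool.Agent.SmN Pool.Agent.SmN.Fnl
open Pool.Agent.SmJ Pool.Agent.SmNJ Pool.Agent.GBU Pool.Agent.SmP
open Pool.Agent.SmJ.L (EV ZSel Sel Sha2 GMod HasCorank E6Prop OrdOn)
open Pool.Agent.SmJ.R (OddDeg Jc JP jcMap galP map_gal)
open Pool.Agent.Lib.SmD (chi below)

section shrink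

variable {G V V1 Pl : Type} [Group G] [AddCommGroup V] [DistribMulAction G V]
  [AddCommGroup V1] [Module (ZMod 2) V1] {S : SmN.Sys G V V1 Pl} {U : Set Pl} {c : G → ZMod 2}

theorem isSel_shrink {m : ℕ} {Psi : G → V} :
    (shrink S U).IsSel c m Psi ↔ S.IsSel c m Psi :=
  ⟨fun h => ⟨h.tf, h.coc, h.lev, h.loc⟩, fun h => ⟨h.tf, h.coc, h.lev, h.loc⟩⟩

/-- The Selmer cocycles do not depend on the set of good places. -/
def selE (m : ℕ) : {Psi // (shrink S U).IsSel c m Psi} ≃ {Psi // S.IsSel c m Psi} :=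
  Equiv.subtypeEquivRight fun _ => isSel_shrink

theorem smallS_shrink {m : ℕ} : SmallS (shrink S U) m c ↔ SmallS S m c := by
  unfold SmallS
  rw [Nat.card_congr (selE (S := S) (U := U) (c := c) m)]
  exact and_congr_left fun _ => ⟨fun _ => Finite.of_equiv _ (selE (S := S) (U := U) (c := c) m),
    fun _ => Finite.of_equiv _ (selE (S := S) (U := U) (c := c) m).symm⟩

end shrink

section main

variable {k K Ω : Type} [Field k] [Finite k] [Field K] [Algebra k K] [Algebra (RatFunc k) K]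
  [IsScalarTower k (RatFunc k) K] [FiniteDimensional (RatFunc k) K]
  [Algebra.IsSeparable (RatFunc k) K] [Field Ω] [Algebra K Ω] [IsSepClosure K Ω] {g : ℕ}
  {a : Fin (2 * g + 1) → Ω} [RtG K a] [HypA a]

/-- The conclusions for the twist by `d`. -/
theorem ord_of_smallH (h2 : (2 : k) ≠ 0) (hn : ((2 * g + 1).factorial : K) ≠ 0)
    (hfix : ∀ w : EV g, (∀ s, acN K a s w = w) → w = 0) {f : K[X]} (hm : f.Monic)
    (ha : ff a = f.map (algebraMap K Ω)) {d : K} (hd : d ≠ 0) [OddDeg (f.scaleRoots d)]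
    {fr : Ω ≃ₐ[K] Ω} (hfr : IsFrC k fr) {T0 U : Set (Place k K)}
    {H : HData (VN a) (MuT Ω) (Place k K)} (hok : (shrink (sysT k K Ω a T0) U).Ok)
    (hH : HOk (shrink (sysT k K Ω a T0) U) H) (hdeg : ∀ v, H.deg v = v.degree) {j : ℕ}
    (hj : 1 ≤ j) (hS : SmallS (shrink (sysT k K Ω a T0) U) j (chi K d))
    (hq : ¬ ∃ y, IsZ (shrink (sysT k K Ω a T0) U) H (chi K d) j y) :
    SmJ.L.GoodOn k (galP Ω (f.scaleRoots d)) j ∧ OrdOn k (galP Ω (f.scaleRoots d)) := by
  have hsc : IsSepClosed Ω := IsSepClosure.sep_closed K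
  have hgal : IsGalois K Ω := inferInstance
  have h2K : (2 : K) ≠ 0 := by
    intro h
    apply h2
    apply (algebraMap k K).injective
    rw [map_ofNat, h, map_zero]
  have hG := good_of_small (T0 := T0) h2 hn hfix hm ha hd hj (smallS_shrink.1 hS)
  refine ⟨hG, ?_⟩
  obtain ⟨r, hr1, hr, -⟩ := hG.corank
  obtain ⟨δ, hδ⟩ := Pool.Agent.SmF.exists_sqrt (K := K) (Ω := Ω) h2K d
  have hδ0 : δ ≠ 0 := by
    rintro rfl
    rw [zero_pow two_ne_zero] at hδ
    exact hd ((map_eq_zero_iff _ (algebraMap K Ω).injective).mp hδ.symm)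
  have hd' : algebraMap K Ω d ≠ 0 := fun h => hd ((map_eq_zero_iff _ (algebraMap K Ω).injective).mp h)
  have hB : HypA fun i => algebraMap K Ω d * a i := HypA.mul hd'
  have hff := ff_scale ha hm d
  have hR : RtG K fun i => algebraMap K Ω d * a i := rtG_of h2K hB.inj hff
  have hpm : pm K (fun i => algebraMap K Ω d * a i) = pm K a := by
    ext s i
    congr 1
    apply hB.inj
    have h3 := pm_spec K (fun i => algebraMap K Ω d * a i) s i
    beta_reduce at h3 ⊢
    rw [h3, map_mul, s.commutes, pm_spec K a s i]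
  have hfix' : ∀ w : EV g, (∀ s, acN K (fun i => algebraMap K Ω d * a i) s w = w) → w = 0 := by
    intro w hw
    refine hfix w fun s => ?_
    have h3 := hw s
    rw [acN, hpm] at h3
    exact h3
  have hφ : ∀ (s : Ω ≃ₐ[K] Ω) (Q : JJ (ff a)), gN K (fun i => algebraMap K Ω d * a i) s
      (twIso a hδ hδ0 Q) = twIso a hδ hδ0 (SmN.sgn (chi K d s) • gN K a s Q) := by
    intro s Q
    rw [map_zsmul]
    exact twIso_actN a s (map_ffN K a s) hδ hδ0 _ Q
  have hDv : ∀ v : Place k K, ∃ w : ValuationSubring Ω, w ≠ ⊤ ∧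
      (∀ c : k, algebraMap K Ω (algebraMap k K c) ∈ w) ∧
      (shrink (sysT k K Ω a T0) U).D v = w.decompositionSubgroup K := fun v =>
    ⟨abK Ω v, abK_ne_top Ω v, fun c => mem_of_finite
      ((algebraMap K Ω).comp (algebraMap k K)) _ c, rfl⟩
  have hdg : ∀ m s, Sm.L.IsDeg k Ω m s (Sm.L.dgK h2 m s) := Sm.L.isDeg_dgK (K := K) h2
  have hDeg : DegOk (shrink (sysT k K Ω a T0) U) H (Sm.L.dgK h2) :=
    Ht.RK.degOkK h2 hfr _ rfl (fun _ => rfl) (fun _ => rfl) H hdeg hH (Sm.L.isDeg_of h2 hdg)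
      fun m s => hdg m s
  refine (trans_gN (fun M _ ρ => HasCorank k ρ r → OrdOn k ρ) _ _ hff).2 (fun hr' => ?_) hr
  refine ordOn_N (k := k) (ρ := gN K a) h2 h2K (gModN K _) (c := 4 ^ g) (F := 1)
    (twIso a hδ hδ0) (chi K d) hφ
    (VN a).subtype Subtype.val_injective (fun Q hQ => ⟨⟨Q, hQ⟩, rfl⟩) (fun s x => rfl)
    (fun j => act_finJ _ h2K hn j) (shrink (sysT k K Ω a T0) U) rfl hDv
    (E6.e6_gN (k := k) _ h2) (by positivity) (SmJ.L.card_EV g) (fun i => ?_) (fun i => ?_)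
    (fun i => ?_) hok hH hdg hDeg ?_ hr1 hr' hj hq
  · rw [card_torsN, pow_mul]
  · exact (card_ratN hfix' i).le
  · obtain ⟨e⟩ := zsel_equivN (k := k) (ρ := gN K a) h2K (gModN K _) (twIso a hδ hδ0) (chi K d) hφ
      (VN a).subtype Subtype.val_injective (fun Q hQ => ⟨⟨Q, hQ⟩, rfl⟩) (fun s x => rfl)
      (fun j => act_finJ _ h2K hn j) (sysT k K Ω a T0) rfl hDv (fun w hw _ => conj_dvK w hw)
      (E6.e6_gN (k := k) _ h2) i
    exact ⟨e.trans (selE i).symm⟩
  · exact (SmN.Ch.homG_iff_homO _ h2K rfl).2 (homO_chi h2K hd)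

end main

end Pool.Agent.SmNH.Fnl
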